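import Mathlib
import Pool.Agent.R582.Coh.Forced

set_option autoImplicit false

/-!
# A generic relation is not a countable intersection of countable unions of rectangles
-/

namespace Pool.Agent.R582.GR

open Cardinal Set
open Pool.Agent.Helper292.SP (fnot fand fall fimp fiff fex fground meets IsFun mem_fex mem_fimp
  not_fex down_meets meets_cst meets_of_mem)
open Pool.Agent.H631R2 (CCC meets_of_dense mem_fiff mem_fiff_meets Cond)
open Pool.Agent.R582.Coh

/-- There is a relation `E` between `K` and `L` which is not a countable intersection of countable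
unions of rectangles `A × B` with `A ⊆ K` and `B ⊆ L`; moreover there are one-to-one functions `c`
and `d` from `K` and `L` to the power set of `ℕ`. -/
def Hyp (K L : Type) : Prop :=
  ∃ (E : K → L → Prop) (c : K → ℕ → Prop) (d : L → ℕ → Prop),
    (∀ k k', (∀ n, c k n ↔ c k' n) → k = k') ∧ (∀ l l', (∀ n, d l n ↔ d l' n) → l = l') ∧
    ∀ (A : ℕ → ℕ → K → Prop) (B : ℕ → ℕ → L → Prop),
      ∃ k l, ¬ (E k l ↔ ∀ m, ∃ n, A m n k ∧ B m n l)

/-- `Hyp` in the forcing language -/
def HypN (P : Type) [Preorder P] (K L : Type) : Set P :=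
  fex fun E : K → L → Set P => fex fun c : K → ℕ → Set P => fex fun d : L → ℕ → Set P =>
    fand (fall fun k : K => fall fun k' : K =>
      fimp (fall fun n : ℕ => fiff (meets (c k n)) (meets (c k' n))) (fground (k = k'))) (fand
    (fall fun l : L => fall fun l' : L =>
      fimp (fall fun n : ℕ => fiff (meets (d l n)) (meets (d l' n))) (fground (l = l')))
    (fall fun A : ℕ → ℕ → K → Set P => fall fun B : ℕ → ℕ → L → Set P =>
      fex fun k : K => fex fun l : L => fnot (fiff (meets (E k l))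
        (fall fun m : ℕ => fex fun n : ℕ => fand (meets (A m n k)) (meets (B m n l))))))

variable {I : Type}

/-- the sentence `N` is downwards closed and has the support `S` -/
def Supp (S : Set I) (N : Set (Cond I)) : Prop :=
  (∀ p ∈ N, ∀ q ≤ p, q ∈ N) ∧ ∀ p ∈ N, rst p S ∈ N

theorem exists_supp (N : Set (Cond I)) : ∃ S : Set I, S.Countable ∧
    ∀ S', S ⊆ S' → Supp S' (meets N) := by
  obtain ⟨S, hS, hS2⟩ := exists_support N
  exact ⟨S, hS, fun S' h => ⟨fun p hp q hq => down_meets hp hq,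
    fun p hp => down_meets (hS2 p hp) (rst_anti h)⟩⟩

theorem Supp.fand {S : Set I} {M N : Set (Cond I)} (hM : Supp S M) (hN : Supp S N) :
    Supp S (fand M N) :=
  ⟨fun p hp q hq => ⟨hM.1 p hp.1 q hq, hN.1 p hp.2 q hq⟩, fun p hp => ⟨hM.2 p hp.1, hN.2 p hp.2⟩⟩

theorem Supp.fall {S : Set I} {ι : Type} {N : ι → Set (Cond I)} (h : ∀ i, Supp S (N i)) :
    Supp S (fall N) :=
  ⟨fun p hp q hq i => (h i).1 p (hp i) q hq, fun p hp i => (h i).2 p (hp i)⟩

theorem Supp.fex {S : Set I} {ι : Type} {N : ι → Set (Cond I)} (h : ∀ i, Supp S (N i)) :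
    Supp S (fex N) := by
  refine ⟨fun p hp q hq => mem_fex.2 fun r hr => mem_fex.1 hp r (hr.trans hq), fun p hp => ?_⟩
  refine mem_fex.2 fun q hq => ?_
  obtain ⟨u, hu, hup⟩ := Cond.exists_lb (p := rst q S) (q := p) (by
    intro i b c hb hc
    have h1 : (i, c) ∈ (rst p S).s := mem_rst.2 ⟨hc, (mem_rst.1 hb).2⟩
    exact Cond.unique (mem_rst.1 hb).1 (hq h1))
  obtain ⟨r, hr, i, hi⟩ := mem_fex.1 hp u hup
  obtain ⟨v, hv, hvq⟩ := Cond.exists_lb (p := rst r S) (q := q) (by
    intro i b c hb hc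
    have h1 : (i, c) ∈ (rst q S).s := mem_rst.2 ⟨hc, (mem_rst.1 hb).2⟩
    exact Cond.unique (mem_rst.1 hb).1 ((hr.trans hu) h1))
  exact ⟨v, hvq, i, (h i).1 _ ((h i).2 r hi) v hv⟩

theorem not_mem_fnot' {P : Type} [Preorder P] {φ : Set P} {p : P} (h : p ∉ fnot φ) :
    ∃ q ≤ p, q ∈ φ := not_mem_fnot h

variable {K L : Type}

/-- the name of the generic relation -/
def gr (k : K) (l : L) : Set (Cond (K × L)) := {p | ((k, l), true) ∈ p.s}

theorem gr_open (k : K) (l : L) : ∀ q ∈ gr k l, ∀ r ≤ q, r ∈ gr k l := fun _ hq _ hr => hr hq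

theorem meets_gr {k : K} {l : L} {p : Cond (K × L)} (h : ((k, l), true) ∈ p.s) :
    p ∈ meets (gr k l) := meets_of_mem (gr_open k l) h

theorem not_meets_gr {k : K} {l : L} {p : Cond (K × L)} (h : ((k, l), false) ∈ p.s) :
    p ∉ meets (gr k l) := by
  intro hp
  obtain ⟨r, hr, s, hs, hrs⟩ := hp p le_rfl
  exact r.fn _ (hrs hs) (hr h)

/-- two different names give different truth values at some place -/
theorem distinct {ι : Type} {f g : ι → K × L} (hfg : ∀ i, f i ≠ g i)
    (q : Cond (K × L)) (hq : ∃ i, f i ∉ q.dom ∧ g i ∉ q.dom) :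
    q ∉ fall fun i : ι => fiff (meets (gr (f i).1 (f i).2)) (meets (gr (g i).1 (g i).2)) := by
  intro hcon
  obtain ⟨i, hi, hj⟩ := hq
  obtain ⟨r, hr, hr1, hr2⟩ := Cond.exists_ext q hi true
  have hj' : g i ∉ r.dom := by
    intro h
    obtain ⟨b, hb⟩ := Cond.mem_dom.mp h
    rcases hr2 _ hb with h' | h'
    · exact hfg i (Prod.mk.inj h').1.symm
    · exact hj (Cond.mem_dom.mpr ⟨b, h'⟩)
  obtain ⟨r', hr', hr3, -⟩ := Cond.exists_ext r hj' false
  have h1 := (mem_fiff_meets.mp (hcon i) r' (hr'.trans hr)).mp (meets_gr (hr' hr1))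
  exact not_meets_gr hr3 h1

theorem forced (hK : ℵ₀ < #K) (hL : #K < #L) (p : Cond (K × L)) : p ∈ HypN (Cond (K × L)) K L := by
  have hKi : Infinite K := Cardinal.infinite_iff.2 hK.le
  have hLi : Infinite L := Cardinal.infinite_iff.2 (hK.trans hL).le
  obtain ⟨a⟩ : Nonempty (ℕ ↪ L) := ⟨Infinite.natEmbedding L⟩
  obtain ⟨b⟩ : Nonempty (ℕ ↪ K) := ⟨Infinite.natEmbedding K⟩
  refine mem_fex_self gr fun q _ => mem_fex_self (fun k n => gr k (a n)) fun q _ =>
    mem_fex_self (fun l n => gr (b n) l) fun q _ => ⟨fun k k' => ?_, fun l l' => ?_, fun A B => ?_⟩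
  · refine mem_fimp.2 fun r _ hr => ⟨r, le_rfl, ?_⟩
    change k = k'
    by_contra hne
    refine distinct (f := fun n => (k, a n)) (g := fun n => (k', a n))
      (fun n h => hne (Prod.mk.inj h).1) r ?_ hr
    have h1 : ((fun n : ℕ => (k, a n)) ⁻¹' r.dom).Finite :=
      r.dom_finite.preimage (Function.Injective.injOn fun n m h => a.injective (Prod.mk.inj h).2)
    have h2 : ((fun n : ℕ => (k', a n)) ⁻¹' r.dom).Finite :=
      r.dom_finite.preimage (Function.Injective.injOn fun n m h => a.injective (Prod.mk.inj h).2)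
    obtain ⟨n, hn⟩ := (h1.union h2).infinite_compl.nonempty
    rw [mem_compl_iff, mem_union, not_or] at hn
    exact ⟨n, hn.1, hn.2⟩
  · refine mem_fimp.2 fun r _ hr => ⟨r, le_rfl, ?_⟩
    change l = l'
    by_contra hne
    refine distinct (f := fun n => (b n, l)) (g := fun n => (b n, l'))
      (fun n h => hne (Prod.mk.inj h).2) r ?_ hr
    have h1 : ((fun n : ℕ => (b n, l)) ⁻¹' r.dom).Finite :=
      r.dom_finite.preimage (Function.Injective.injOn fun n m h => b.injective (Prod.mk.inj h).1)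
    have h2 : ((fun n : ℕ => (b n, l')) ⁻¹' r.dom).Finite :=
      r.dom_finite.preimage (Function.Injective.injOn fun n m h => b.injective (Prod.mk.inj h).1)
    obtain ⟨n, hn⟩ := (h1.union h2).infinite_compl.nonempty
    rw [mem_compl_iff, mem_union, not_or] at hn
    exact ⟨n, hn.1, hn.2⟩
  · refine mem_fex.2 fun r _ => ?_
    choose SA hSA hSA2 using fun m n k => exists_supp (A m n k)
    choose SB hSB hSB2 using fun m n l => exists_supp (B m n l)
    -- a free pair
    have hS : ∀ k, ((⋃ m, ⋃ n, SA m n k) ∪ r.dom).Countable := fun k =>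
      (countable_iUnion fun m => countable_iUnion fun n => hSA m n k).union r.dom_finite.countable
    have hT : ∀ l, (⋃ m, ⋃ n, SB m n l).Countable := fun l =>
      countable_iUnion fun m => countable_iUnion fun n => hSB m n l
    have hl : ∃ l : L, ∀ k : K, (k, l) ∉ (⋃ m, ⋃ n, SA m n k) ∪ r.dom := by
      by_contra hcon
      push Not at hcon
      have h1 : (⋃ k : K, (fun l : L => (k, l)) ⁻¹' ((⋃ m, ⋃ n, SA m n k) ∪ r.dom)) = Set.univ := by
        refine eq_univ_of_forall fun l => ?_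
        obtain ⟨k, hk⟩ := hcon l
        exact mem_iUnion.2 ⟨k, hk⟩
      have h2 : #(⋃ k : K, (fun l : L => (k, l)) ⁻¹' ((⋃ m, ⋃ n, SA m n k) ∪ r.dom)) ≤ #K * ℵ₀ := by
        refine Cardinal.mk_iUnion_le_sum_mk.trans ?_
        rw [← Cardinal.sum_const']
        refine Cardinal.sum_le_sum _ _ fun k => ?_
        rw [Cardinal.le_aleph0_iff_set_countable]
        exact (hS k).preimage fun l l' h => (Prod.mk.inj h).2
      rw [h1, Cardinal.mk_univ, Cardinal.mul_eq_left hK.le hK.le Cardinal.aleph0_ne_zero] at h2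
      exact absurd hL (not_lt.2 h2)
    obtain ⟨l, hl⟩ := hl
    have hk : ∃ k : K, (k, l) ∉ ⋃ m, ⋃ n, SB m n l := by
      by_contra hcon
      push Not at hcon
      have h1 : ((fun k : K => (k, l)) ⁻¹' (⋃ m, ⋃ n, SB m n l)).Countable :=
        (hT l).preimage fun k k' h => (Prod.mk.inj h).1
      rw [eq_univ_of_forall (s := (fun k : K => (k, l)) ⁻¹' (⋃ m, ⋃ n, SB m n l)) hcon,
        ← Cardinal.le_aleph0_iff_set_countable, Cardinal.mk_univ] at h1
      exact absurd hK (not_lt.2 h1)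
    obtain ⟨k, hk⟩ := hk
    set S : Set (K × L) := {x | x ≠ (k, l)} with hSdef
    have hsA : ∀ m n, SA m n k ⊆ S := by
      rintro m n x hx rfl
      exact hl k (Or.inl (mem_iUnion.2 ⟨m, mem_iUnion.2 ⟨n, hx⟩⟩))
    have hsB : ∀ m n, SB m n l ⊆ S := by
      rintro m n x hx rfl
      exact hk (mem_iUnion.2 ⟨m, mem_iUnion.2 ⟨n, hx⟩⟩)
    have hφ : Supp S (fall fun m : ℕ => fex fun n : ℕ => fand (meets (A m n k)) (meets (B m n l))) :=
      Supp.fall fun m => Supp.fex fun n => (hSA2 m n k S (hsA m n)).fand (hSB2 m n l S (hsB m n))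
    have hklr : (k, l) ∉ r.dom := fun h => hl k (Or.inr h)
    set φ : Set (Cond (K × L)) :=
      fall fun m : ℕ => fex fun n : ℕ => fand (meets (A m n k)) (meets (B m n l)) with hφdef
    have key : ∃ u ≤ r, u ∈ fnot (fiff (meets (gr k l)) φ) := by
      by_contra hcon
      push Not at hcon
      obtain ⟨w, hw, hw1, -⟩ := Cond.exists_ext r hklr true
      obtain ⟨u, hu, hu1⟩ := not_mem_fnot' (hcon w hw)
      obtain ⟨u2, hu2, hu3⟩ := (mem_fiff.1 hu1).1 u le_rfl (meets_gr (hu hw1))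
      have h1 : rst u2 S ∈ φ := hφ.2 u2 hu3
      have h2 : rst u2 S ≤ r := by
        intro x hx
        refine mem_rst.2 ⟨(hu2.trans (hu.trans hw)) hx, fun h => hklr ?_⟩
        rw [← h]
        exact Cond.mem_dom.2 ⟨x.2, hx⟩
      have h3 : (k, l) ∉ (rst u2 S).dom := by
        intro h
        obtain ⟨c, hc⟩ := Cond.mem_dom.1 h
        exact (mem_rst.1 hc).2 rfl
      obtain ⟨w', hw', hw2, -⟩ := Cond.exists_ext (rst u2 S) h3 false
      obtain ⟨v, hv, hv1⟩ := not_mem_fnot' (hcon w' (hw'.trans h2))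
      obtain ⟨v2, hv2, hv3⟩ := (mem_fiff.1 hv1).2 v le_rfl (hφ.1 _ h1 v (hv.trans hw'))
      exact not_meets_gr (hv2 (hv hw2)) hv3
    obtain ⟨u, hu, hu1⟩ := key
    exact ⟨u, hu, k, mem_fex_self l fun v hv => down_fnot hu1 hv⟩

end Pool.Agent.R582.GR
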